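import Pool.Agent.Helper38_ATT.Phs
import Pool.Agent.Helper38_KIL.KR1
import Pool.Agent.Helper38_KIL.KAL
import Pool.Agent.Helper13_KIL.KTH
import Pool.Agent.Helper38_KIL.KNB
import Pool.Agent.Helper84_KIL.KJN
import Pool.Agent.Helper58_KIL.KJA
import Pool.Agent.Helper58_KIL.KLJ
import Pool.Agent.Helper44_KIL.KLR
import Pool.Agent.Helper77_KIL.UF3
import Pool.Agent.Helper77_LQF.JAL
import Pool.Agent.Helper32_LQF.JMA
import Pool.Agent.Helper2_LQF.FLW
import Pool.Agent.Helper65_LQD.STE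
import Pool.Agent.Helper41_ATT.PEB
import Pool.Agent.Helper49_ATT.CUP
import Pool.Agent.Helper27_ATT.PEJ
import Pool.Agent.Helper75_ATT.MXJ
import Pool.Agent.Helper75_ATT.GUF
import Pool.Agent.Helper18_ATT.UJT
import Pool.Agent.Helper19_ATT.RUN
import Pool.Agent.Helper84_ATT.NET
import Pool.Agent.Helper54_ATT.GOK
import Pool.Agent.Helper28_ATT.STK
import Pool.Agent.Helper92_ATT.RVS
import Pool.Agent.Helper76_ATT.ATA
import Pool.Agent.Helper97_ATT.MAJ
import Pool.Agent.Helper26_ATT.OUT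
import Pool.Agent.Helper63_ANR.GRN
import Pool.Agent.Helper77_ANR.DIR
import Pool.Agent.Helper72_ANR.GEQ
import Pool.Agent.Helper31_ANR.QSY
import Pool.Agent.Helper92_ANR.LV1
import Pool.Agent.Helper17_ANR.LV2
import Pool.Agent.Helper20_ANR.LV0

/-!
# Attempts: everything without hypotheses
-/

set_option autoImplicit false

namespace Pool.Agent.ATT.H38

theorem jal_ : LE.QF.JalStmt := LE.QF.H77.jal
theorem jma_ : LE.QF.JmaStmt := LE.QF.H32.jma jal_
theorem flw_ : LE.QF.FlwStmt := LE.QF.H2.flw LE.QD.H65.ste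

/-! ### ANR -/

theorem grn_ : ANR.GrnStmt := ANR.H63.grn
theorem dir_ : ANR.DirStmt := ANR.H77.dir grn_
theorem geq_ : ANR.GeqStmt := ANR.H72.geq dir_ grn_
theorem qsy_ : ANR.QsyStmt := ANR.H31.qsy grn_
theorem lv1_ : ANR.Lv1Stmt := ANR.H92.lv1 grn_ dir_ qsy_
theorem lv2_ : ANR.Lv2Stmt := ANR.H17.lv2 lv1_ dir_ geq_
theorem lv0_ : ANR.Lv0Stmt := ANR.H20.lv0 geq_ dir_

/-! ### KIL -/

theorem kth_ : KIL.KthStmt := KIL.H13.kth
theorem kal_ : KIL.KalStmt := KIL.H38.kal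
theorem kjn_ : KIL.KjnStmt := KIL.H84.kjn
theorem kja_ : KIL.KjaStmt := KIL.H58.kja kjn_
theorem knb_ : KIL.KnbStmt := KIL.H38K.knb
theorem uf3_ : KIL.Uf3Stmt := KIL.H77.uf3 jal_ flw_
theorem kr1_ : KIL.Kr1Stmt := KIL.H38.kr1 jal_ kja_ knb_ kal_ uf3_
theorem klj_ : KIL.KljStmt := KIL.H58.klj kjn_ knb_
theorem klr_ : KIL.KlrStmt := KIL.H44.klr klj_ uf3_

/-! ### ATT -/

theorem peb_ : PebStmt := H41.peb
theorem msr_ : MsrStmt := H41.msr
theorem cup_ : CupStmt := H49.cup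
theorem pej_ : PejStmt := H27.pej jal_
theorem mxj_ : MxjStmt := H75.mxj jal_
theorem maj_ : MajStmt := H97.maj
theorem ujt_ : UjtStmt := H18.ujt peb_ pej_ mxj_ maj_
theorem guf_ : GufStmt := H75.guf jal_ flw_
theorem run_ : RunStmt := H19.run geq_ jal_ jma_
theorem net_ : NetStmt := H84.net geq_
theorem gok_ : GokStmt := H54.gok ujt_ run_ peb_
theorem stk_ : StkStmt := H28.stk ujt_ run_ msr_ guf_ cup_
theorem rvs_ : RvsStmt := H92.rvs lv2_ lv0_ net_
theorem ata_ : AtaStmt := H76.ata stk_ rvs_ cup_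
theorem out_ : OutStmt := H26.out peb_

/-- the phase, without hypotheses -/
theorem phn_ : PhnStmt := phn ⟨run_, gok_, msr_, stk_, cup_, geq_, dir_⟩ klr_ kr1_ kth_

end Pool.Agent.ATT.H38
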