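import Pool.Agent.ATT.StmtsP
import Pool.Agent.ANR.Stmts

/-!
# The phase: networks, measures, the functional at the start of a run
-/

set_option autoImplicit false

open MeasureTheory ProbabilityTheory Function Filter

open scoped ENNReal BigOperators Topology NNReal Matrix

noncomputable section

namespace Pool.Agent.ATT.H38

open Pool.Agent.LE.QF (HJ HM gG LL dC)
open Pool.Agent.KIL (KJ KGd Cut gam nn aa yn ym cu)
open Pool.Agent.ANP (Cfg gm Att)

/-! ### isolated sites -/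

section net

variable {X : Type} [Fintype X] [DecidableEq X]

theorem gam_zero (geq : ANR.GeqStmt) (hdir : ANR.DirStmt) (H : Matrix X X ℝ) (κ : X → ℝ)
    (hN : ANR.Net H κ) (b : X) : gam κ (ANR.Gr H κ) b = 0 ↔ ∀ v, v ≠ b → H v b = 0 := by
  obtain ⟨g1, g2, g3, -, -⟩ := geq X H κ hN
  have hnn : ∀ v ∈ Finset.univ.erase b, 0 ≤ nn κ (ANR.Gr H κ) b v := fun v _ =>
    mul_nonneg (hN.pos v).le (by positivity)
  constructor
  · intro h0
    have hz : ∀ v, v ≠ b → ANR.Gr H κ v b = 0 := by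
      intro v hv
      have h3 := (Finset.sum_eq_zero_iff_of_nonneg hnn).1 h0 v
        (Finset.mem_erase.2 ⟨hv, Finset.mem_univ v⟩)
      have h4 : κ v * ‖ANR.Gr H κ v b‖ ^ 2 = 0 := h3
      rcases mul_eq_zero.1 h4 with h5 | h5
      · exact absurd h5 (hN.pos v).ne'
      · exact norm_eq_zero.1 ((pow_eq_zero_iff two_ne_zero).1 h5)
    have hop : ∀ x, ANR.opv H κ (fun z => ANR.Gr H κ z b) x =
        (H x b : ℂ) * ANR.Gr H κ b b - Complex.I * (κ x : ℂ) * ANR.Gr H κ x b := by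
      intro x
      unfold ANR.opv
      rw [Finset.sum_eq_single b]
      · intro v _ hv
        show _ * ANR.Gr H κ v b = 0
        rw [hz v hv, mul_zero]
      · intro h
        exact absurd (Finset.mem_univ b) h
    intro v hv
    by_contra hvb
    have h3 := g1 v b
    rw [hop, hz v hv, mul_zero, sub_zero, if_neg hv] at h3
    have h4 : ANR.Gr H κ b b = 0 := by
      rcases mul_eq_zero.1 h3 with h5 | h5
      · exact absurd (Complex.ofReal_eq_zero.1 h5) hvb
      · exact h5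
    have h6 := g1 b b
    rw [hop, h4, mul_zero, mul_zero, sub_zero, if_pos rfl] at h6
    exact zero_ne_one h6
  · intro hz
    obtain ⟨ψ, _, huni⟩ := hdir X H κ ∅ hN (fun _ => 0) (fun _ => 0)
    have hw : (fun z => if z = b then 0 else ANR.Gr H κ z b) = ψ := by
      refine huni _ ⟨fun b hb => absurd hb (Finset.notMem_empty b), fun x _ => ?_⟩
      have h1 := g1 x b
      unfold ANR.opv at h1 ⊢
      have h2 : ∑ y, (H x y : ℂ) * (if y = b then 0 else ANR.Gr H κ y b) =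
          ∑ y, (H x y : ℂ) * ANR.Gr H κ y b - (H x b : ℂ) * ANR.Gr H κ b b := by
        rw [eq_sub_iff_add_eq, ← Finset.sum_erase_add _ _ (Finset.mem_univ b),
          ← Finset.sum_erase_add _ (fun y => (H x y : ℂ) * ANR.Gr H κ y b) (Finset.mem_univ b)]
        rw [if_pos rfl, mul_zero, add_zero]
        congr 1
        exact Finset.sum_congr rfl fun y hy => by rw [if_neg (Finset.ne_of_mem_erase hy)]
      rw [h2]
      beta_reduce at h1 ⊢
      by_cases hx : x = b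
      · subst hx
        rw [if_pos rfl, mul_zero, sub_zero]
        rw [← Finset.sum_erase_add _ _ (Finset.mem_univ x)]
        rw [add_sub_cancel_right]
        refine Finset.sum_eq_zero fun y hy => ?_
        rw [hN.sym x y, hz y (Finset.ne_of_mem_erase hy), Complex.ofReal_zero, zero_mul]
      · rw [if_neg hx, hz x hx, Complex.ofReal_zero, zero_mul, sub_zero]
        rw [if_neg hx] at h1
        exact h1
    have hw0 : (fun _ : X => (0 : ℂ)) = ψ := by
      refine huni _ ⟨fun b hb => rfl, fun x _ => ?_⟩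
      unfold ANR.opv
      simp
    refine Finset.sum_eq_zero fun v hv => ?_
    have h1 := congrFun (hw.trans hw0.symm) v
    beta_reduce at h1
    rw [if_neg (Finset.ne_of_mem_erase hv)] at h1
    unfold nn
    rw [h1]
    simp

end net

/-! ### the clocks of a state -/

section state

variable {X : Type} [Fintype X] [DecidableEq X] {A : Pa X} {κs g₀ Λ Lc hK kI : ℝ}
  {T : Cfg X} {Qr D : Finset X} {Go : Matrix X X ℂ}

theorem st_al (st : A.St T Qr Go) {x : X} (hx : x ∈ A.al T) : T.V x = A.T₀.V x ∧ T.s x = A.v := by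
  obtain ⟨h1, h2⟩ := Finset.mem_filter.1 hx
  exact (st.run x h1).resolve_left h2

omit [Fintype X] [DecidableEq X] in
theorem al_sub : A.al T ⊆ A.R := Finset.filter_subset _ _

theorem st_pos (hy : A.Hyp κs g₀ Λ Lc hK kI) (st : A.St T Qr Go) (x : X) (hx : 0 < T.s x) :
    0 < (T.mb x).im := by
  rw [st.mb]
  refine hy.pimb x ?_
  by_cases hR : x ∈ A.R
  · rw [(hy.hR x hR).1]; exact hy.pos.2.2.1
  by_cases hQ : x ∈ A.Q
  · exact pos_iff_ne_zero.2 (hy.hQ x hQ)
  rw [← (st.off x hR hQ).2]; exact hx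

theorem b_notin (hy : A.Hyp κs g₀ Λ Lc hK kI) (st : A.St T Qr Go) {b : X} (hb : b ∈ Qr) :
    b ∉ A.al T := fun h =>
  Finset.disjoint_left.1 hy.dis (al_sub h) (st.sub hb)

/-- the run -/
theorem run_st (hrun : RunStmt) (hy : A.Hyp κs g₀ Λ Lc hK kI) (st : A.St T Qr Go)
    (hD : D ⊆ A.al T) :
    (∀ r : ℝ × (D → ℝ), 0 ≤ r.1 → r.1 ≤ A.v →
      KJ (fun c : D => (c : X)) r (Gk A.Hm A.η A.e0 A.v T D) (kr A.η A.e0 A.v T D)
        (Gk A.Hm A.η A.e0 A.v T D r) (kr A.η A.e0 A.v T D r.1) (fun x => (mg A.η A.e0 A.v T x).im)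
        (fun c => Gk A.Hm A.η A.e0 A.v T D r c c - mg A.η A.e0 A.v T c) ∧
      ∀ x, 0 < kr A.η A.e0 A.v T D r.1 x) ∧
    Gk A.Hm A.η A.e0 A.v T D 0 = A.G T ∧ kr A.η A.e0 A.v T D 0 = A.k T ∧
    (∀ ζ : X → ℝ, Gk A.Hm A.η A.e0 A.v T D (A.v, fun c => ζ c) = A.G (T.kl D ζ) ∧
      kr A.η A.e0 A.v T D A.v = A.k (T.kl D ζ)) ∧
    ∀ a b, Measurable fun ζ : X → ℝ => A.G (T.kl D ζ) a b := by
  obtain ⟨h1, h2, h3, h4, h5⟩ := hrun X A.Hm A.η A.e0 A.v T D hy.sym hy.pos.1 hy.pos.2.1 hy.pos.2.2.1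
    (st_pos hy st) (fun c hc => (st_al st (hD hc)).2)
  exact ⟨fun r hr hr' => ⟨(h1 r hr hr').1, (h1 r hr hr').2.1⟩, h2, h3, h4, h5⟩

theorem net_T (hrun : RunStmt) (hy : A.Hyp κs g₀ Λ Lc hK kI) (st : A.St T Qr Go) :
    ANR.Net (hN A.Hm T) (A.k T) := by
  obtain ⟨h1, _, h3, _⟩ := run_st (D := ∅) hrun hy st (Finset.empty_subset _)
  refine ⟨fun x y => ?_, fun x => ?_⟩
  · unfold hN
    by_cases h : x = y
    · rw [h]
    · rw [if_neg h, if_neg (Ne.symm h), hy.sym x y]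
  · rw [← h3]
    have := (h1 (0, fun _ => 0) le_rfl (NNReal.coe_nonneg _)).2 x
    exact this

/-- the current out of `b` stays positive -/
theorem gam_run (hrun : RunStmt) (geq : ANR.GeqStmt) (hdir : ANR.DirStmt)
    (hy : A.Hyp κs g₀ Λ Lc hK kI) (st : A.St T Qr Go) (hD : D ⊆ A.al T) {b : X}
    (hg : gam (A.k T) (A.G T) b ≠ 0) (r : ℝ × (D → ℝ)) (h0 : 0 ≤ r.1) (h1 : r.1 ≤ A.v) :
    0 < gam (kr A.η A.e0 A.v T D r.1) (Gk A.Hm A.η A.e0 A.v T D r) b := by
  obtain ⟨hr, _⟩ := run_st hrun hy st hD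
  have hpos := (hr r h0 h1).2
  have hN' : ANR.Net (fun x y => hN A.Hm T x y +
    if h : x ∈ D then (if x = y then r.2 ⟨x, h⟩ + r.1 * (T.mb x).re else 0) else 0)
    (kr A.η A.e0 A.v T D r.1) := by
    refine ⟨fun x y => ?_, hpos⟩
    by_cases h : x = y
    · rw [h]
    · simp only [if_neg h, if_neg (Ne.symm h), dite_eq_ite, ite_self, add_zero]
      exact (net_T hrun hy st).sym x y
  have h2 : 0 ≤ gam (kr A.η A.e0 A.v T D r.1) (Gk A.Hm A.η A.e0 A.v T D r) b :=
    Finset.sum_nonneg fun v _ => mul_nonneg (hpos v).le (by positivity)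
  refine lt_of_le_of_ne h2 fun h3 => hg ?_
  have h4 := (gam_zero geq hdir _ _ hN' b).1 h3.symm
  refine (gam_zero geq hdir (hN A.Hm T) (A.k T) (net_T hrun hy st) b).2 fun v hv => ?_
  have h5 := h4 v hv
  simp only [if_neg hv, dite_eq_ite, ite_self, add_zero] at h5
  exact h5

end state

/-! ### measures -/

/-- extension by zero -/
def ext {X : Type} [DecidableEq X] (D : Finset X) (V : D → ℝ) (x : X) : ℝ :=
  if h : x ∈ D then V ⟨x, h⟩ else 0

theorem meas_ext {X : Type} [DecidableEq X] (D : Finset X) : Measurable (ext D) := by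
  refine measurable_pi_lambda _ fun x => ?_
  unfold ext
  by_cases h : x ∈ D
  · simp only [dif_pos h]
    exact measurable_pi_apply _
  · simp only [dif_neg h]
    exact measurable_const

theorem ext_res {X : Type} [DecidableEq X] (D : Finset X) (V : D → ℝ) :
    (fun c : D => ext D V c) = V := by
  funext c
  unfold ext
  rw [dif_pos c.2]

theorem lint_run (hmsr : MsrStmt) {X : Type} [Fintype X] [DecidableEq X] (T : Cfg X) (D : Finset X)
    (v : ℝ≥0) (hD : ∀ c ∈ D, T.s c = v) (f : (X → ℝ) → ℝ≥0∞) (hf : Measurable f)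
    (hres : ∀ ζ ζ', (∀ c ∈ D, ζ c = ζ' c) → f ζ = f ζ') :
    ∫⁻ ζ, f ζ ∂(gm (fun _ => 0) (T.kv D)) =
      ∫⁻ V, f (ext D V) ∂(Measure.pi fun _ : D => gaussianReal 0 v) := by
  rw [← hmsr X T D v (fun V => f (ext D V)) (hf.comp (meas_ext D)) hD]
  refine lintegral_congr fun ζ => hres _ _ fun c hc => ?_
  unfold ext
  rw [dif_pos hc]

theorem lint_real (hmsr : MsrStmt) {X : Type} [Fintype X] [DecidableEq X] (T : Cfg X)
    (D : Finset X) (v : ℝ≥0) (hD : ∀ c ∈ D, T.s c = v) (h : (X → ℝ) → ℝ) (hh : Measurable h)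
    (K : ℝ) (h0 : ∀ ζ, 0 ≤ h ζ) (h1 : ∀ ζ, h ζ ≤ K)
    (hres : ∀ ζ ζ', (∀ c ∈ D, ζ c = ζ' c) → h ζ = h ζ') :
    ∫⁻ ζ, ENNReal.ofReal (h ζ) ∂(gm (fun _ => 0) (T.kv D)) =
      ENNReal.ofReal (∫ V, h (ext D V) ∂(Measure.pi fun _ : D => gaussianReal 0 v)) := by
  rw [lint_run hmsr T D v hD (fun ζ => ENNReal.ofReal (h ζ)) (by fun_prop)
    (fun ζ ζ' hz => by rw [hres ζ ζ' hz])]
  rw [ofReal_integral_eq_lintegral_ofReal]
  · refine Integrable.of_bound (hh.comp (meas_ext D)).aestronglyMeasurable K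
      (Eventually.of_forall fun V => ?_)
    show ‖h (ext D V)‖ ≤ K
    rw [Real.norm_of_nonneg (h0 _)]
    exact h1 _
  · exact Eventually.of_forall fun V => h0 _

theorem kl_congr {X : Type} [DecidableEq X] (T : Cfg X) (D : Finset X) (ζ ζ' : X → ℝ)
    (h : ∀ c ∈ D, ζ c = ζ' c) : T.kl D ζ = T.kl D ζ' := by
  unfold Cfg.kl
  congr 1
  funext x
  by_cases hx : x ∈ D
  · rw [if_pos hx, if_pos hx, h x hx]
  · rw [if_neg hx, if_neg hx]

instance {X : Type} [Fintype X] (a : X → ℝ) (r : X → ℝ≥0) : IsProbabilityMeasure (gm a r) := by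
  unfold gm
  infer_instance

end Pool.Agent.ATT.H38
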