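import Pool.Agent.Helper38_ATT.PhA

/-!
# The phase: one round
-/

set_option autoImplicit false

open MeasureTheory ProbabilityTheory Function Filter

open scoped ENNReal BigOperators Topology NNReal Matrix

noncomputable section

namespace Pool.Agent.ATT.H38

open Pool.Agent.LE.QF (HJ HM gG LL dC)
open Pool.Agent.KIL (KJ KGd Cut gam nn aa yn ym cu Ph Kr1Body)
open Pool.Agent.ANP (Cfg gm Att)

/-! ### the value -/

/-- the value of the phase -/
def val (lam B a M S c y : ℝ) : ℝ :=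
  a + M * c + Real.exp (2 * lam) * ((1 - c) * Real.exp (lam * (3 * y - y ^ 2 - 2) - lam * S / 20) +
    B * c)

section value

variable {lam B a M S c c' y : ℝ}

theorem val_ge2 (hlam : 0 < lam) (hB : 1 ≤ B) (hc : 0 ≤ c) (hc1 : c ≤ 1) :
    a + (M + 1) * c ≤ val lam B a M S c y := by
  unfold val
  have h1 : 1 ≤ Real.exp (2 * lam) := Real.one_le_exp (by linarith)
  have h2 := Real.exp_pos (lam * (3 * y - y ^ 2 - 2) - lam * S / 20)
  have h3 : c ≤ (1 - c) * Real.exp (lam * (3 * y - y ^ 2 - 2) - lam * S / 20) + B * c := by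
    nlinarith [mul_nonneg (sub_nonneg.2 hc1) h2.le]
  have h4 : 0 ≤ (1 - c) * Real.exp (lam * (3 * y - y ^ 2 - 2) - lam * S / 20) + B * c :=
    hc.trans h3
  nlinarith

theorem val_ge_one (hlam : 0 < lam) (hB : 1 ≤ B) (ha : 0 ≤ a) (hM : 0 ≤ M) (hc : 0 ≤ c)
    (hc1 : c ≤ 1) (hy0 : 0 ≤ y) (hy1 : y ≤ 1) (h : S ≤ 40 * y) : 1 ≤ val lam B a M S c y := by
  unfold val
  have h1 : 1 ≤ Real.exp (2 * lam) := Real.one_le_exp (by linarith)
  have h2 : 1 ≤ Real.exp (2 * lam) * Real.exp (lam * (3 * y - y ^ 2 - 2) - lam * S / 20) := by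
    rw [← Real.exp_add]
    refine Real.one_le_exp ?_
    have h3 : 2 * lam + (lam * (3 * y - y ^ 2 - 2) - lam * S / 20) =
      lam * (3 * y - y ^ 2 - S / 20) := by ring
    rw [h3]
    refine mul_nonneg hlam.le ?_
    nlinarith
  have h4 : Real.exp (2 * lam) * ((1 - c) * Real.exp (lam * (3 * y - y ^ 2 - 2) - lam * S / 20) +
    B * c) = (1 - c) * (Real.exp (2 * lam) * Real.exp (lam * (3 * y - y ^ 2 - 2) - lam * S / 20)) +
    Real.exp (2 * lam) * B * c := by ring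
  rw [h4]
  have h5 : 1 ≤ Real.exp (2 * lam) * B := by nlinarith
  nlinarith [mul_nonneg hM hc, mul_le_mul_of_nonneg_left h2 (sub_nonneg.2 hc1),
    mul_le_mul_of_nonneg_right h5 hc]

theorem exp_le_one' (hlam : 0 < lam) (hy1 : y ≤ 1) (hS : 0 ≤ S) :
    Real.exp (lam * (3 * y - y ^ 2 - 2) - lam * S / 20) ≤ 1 := by
  rw [Real.exp_le_one_iff]
  have h1 : 3 * y - y ^ 2 - 2 ≤ 0 := by nlinarith
  have h2 := mul_nonpos_of_nonneg_of_nonpos hlam.le h1
  have h3 := mul_nonneg hlam.le hS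
  linarith

theorem val_mono (hlam : 0 < lam) (hB : 1 ≤ B) (hM : 0 ≤ M) (hy1 : y ≤ 1) (hS : 0 ≤ S)
    (hcc : c ≤ c') : val lam B a M S c y ≤ val lam B a M S c' y := by
  unfold val
  have h1 := exp_le_one' (y := y) (S := S) hlam hy1 hS
  have h2 := Real.exp_pos (2 * lam)
  have h3 : (1 - c) * Real.exp (lam * (3 * y - y ^ 2 - 2) - lam * S / 20) + B * c ≤
    (1 - c') * Real.exp (lam * (3 * y - y ^ 2 - 2) - lam * S / 20) + B * c' := by nlinarith
  have h4 := mul_le_mul_of_nonneg_left h3 h2.le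
  nlinarith

theorem val_le (hlam : 0 < lam) (hc : 0 ≤ c) (hc1 : c ≤ 1) (hy1 : y ≤ 1) :
    val lam B a M S c y ≤ a + Real.exp (2 * lam) * Real.exp (-(lam * S / 20)) +
      (M + Real.exp (2 * lam) * B) * c := by
  unfold val
  have h1 : Real.exp (lam * (3 * y - y ^ 2 - 2) - lam * S / 20) ≤ Real.exp (-(lam * S / 20)) := by
    refine Real.exp_le_exp.2 ?_
    have h1 : 3 * y - y ^ 2 - 2 ≤ 0 := by nlinarith
    have h2 := mul_nonpos_of_nonneg_of_nonpos hlam.le h1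
    linarith
  have h2 := Real.exp_pos (2 * lam)
  have h3 := Real.exp_pos (-(lam * S / 20))
  have h4 : (1 - c) * Real.exp (lam * (3 * y - y ^ 2 - 2) - lam * S / 20) ≤
      Real.exp (-(lam * S / 20)) := by
    have h5 := mul_le_mul_of_nonneg_left h1 (sub_nonneg.2 hc1)
    nlinarith
  have h6 := mul_le_mul_of_nonneg_left h4 h2.le
  nlinarith

end value

/-! ### the state -/

section state

variable {X : Type} [Fintype X] [DecidableEq X] {A : Pa X} {κs g₀ Λ Lc hK kI : ℝ}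
  {T : Cfg X} {Qr D : Finset X} {Go : Matrix X X ℂ}

theorem mass_T (hrun : RunStmt) (hy : A.Hyp κs g₀ Λ Lc hK kI) (st : A.St T Qr Go) {b : X}
    (hb : b ∈ Qr) {θ : ℝ → ℝ} {t₀ ε : ℝ} (hθ : Cut θ t₀ A.t₁ ε) :
    (∀ x, 0 ≤ A.a T b x) ∧ (∑ x ∈ A.al T, A.a T b x ≤ 1) ∧ 0 ≤ A.y θ T b ∧ A.y θ T b ≤ 1 := by
  have hN := net_T hrun hy st
  have hnn : ∀ v, 0 ≤ nn (A.k T) (A.G T) b v := fun v =>
    mul_nonneg (hN.pos v).le (by positivity)
  have hg : 0 ≤ gam (A.k T) (A.G T) b := Finset.sum_nonneg fun v _ => hnn v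
  have ha : ∀ x, 0 ≤ A.a T b x := fun x => div_nonneg (hnn x) hg
  have hs : ∑ x ∈ A.al T, A.a T b x ≤ 1 := by
    have h1 : ∑ x ∈ A.al T, A.a T b x ≤ ∑ x ∈ Finset.univ.erase b, A.a T b x :=
      Finset.sum_le_sum_of_subset_of_nonneg (fun x hx => Finset.mem_erase.2
        ⟨fun h => b_notin hy st hb (h ▸ hx), Finset.mem_univ _⟩) fun x _ _ => ha x
    refine h1.trans ?_
    unfold Pa.a aa
    rw [← Finset.sum_div]
    exact div_self_le_one _
  refine ⟨ha, hs, Finset.sum_nonneg fun x _ => (hθ.bd _ (ha x)).1, ?_⟩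
  exact (Finset.sum_le_sum fun x _ => (hθ.bd _ (ha x)).2).trans hs

omit [Fintype X] in
theorem filt (T : Cfg X) (D : Finset X) :
    (A.al T).filter (fun v => ∀ c : D, (c : X) ≠ v) = A.al T \ D := by
  ext v
  simp only [Finset.mem_filter, Finset.mem_sdiff]
  constructor
  · rintro ⟨h1, h2⟩
    exact ⟨h1, fun h => h2 ⟨v, h⟩ rfl⟩
  · rintro ⟨h1, h2⟩
    exact ⟨h1, fun c h => h2 (h ▸ c.2)⟩

/-- the functional along the run -/
def uu (A : Pa X) (T : Cfg X) (D Qr : Finset X) (Go : Matrix X X ℂ) (r : ℝ × (D → ℝ)) : ℝ :=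
  (A.W T D Qr).U (kr A.η A.e0 A.v T D r.1) Go r.1 (Gk A.Hm A.η A.e0 A.v T D r)

theorem uu_end (hrun : RunStmt) (hy : A.Hyp κs g₀ Λ Lc hK kI) (st : A.St T Qr Go)
    (hD : D ⊆ A.al T) (V : D → ℝ) : uu A T D Qr Go (A.v, V) = A.Ue T D Qr Go (ext D V) := by
  obtain ⟨_, _, _, h4, _⟩ := run_st hrun hy st hD
  obtain ⟨h5, h6⟩ := h4 (ext D V)
  rw [ext_res] at h5
  unfold uu Pa.Ue
  simp only
  rw [h5, h6]

omit [Fintype X] [DecidableEq X] in
theorem mx_mono {κ : X → ℝ} (hκ : ∀ x, 0 ≤ κ x) {S S' : Finset X} (h : S ⊆ S')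
    (G G' : Matrix X X ℂ) (x : X) : mx κ S G G' x ≤ mx κ S' G G' x :=
  Finset.sum_le_sum_of_subset_of_nonneg h fun y _ _ => mul_nonneg (hκ y) (by positivity)

omit [Fintype X] [DecidableEq X] in
theorem mx_nonneg {κ : X → ℝ} (hκ : ∀ x, 0 ≤ κ x) (S : Finset X)
    (G G' : Matrix X X ℂ) (x : X) : 0 ≤ mx κ S G G' x :=
  Finset.sum_nonneg fun y _ => mul_nonneg (hκ y) (by positivity)

theorem MM_mono {κ : X → ℝ} (hκ : ∀ x, 0 ≤ κ x) {S S' : Finset X} (h : S ⊆ S')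
    (G G' : Matrix X X ℂ) : MM κ S G G' ≤ MM κ S' G G' := by
  unfold MM
  refine (Finset.sum_le_sum fun x _ => mul_le_mul_of_nonneg_left (mx_mono hκ h G G' x) (hκ x)).trans
    ?_
  exact Finset.sum_le_sum_of_subset_of_nonneg h fun y _ _ =>
    mul_nonneg (hκ y) (mx_nonneg hκ _ _ _ _)

theorem uu_start (hrun : RunStmt) (hy : A.Hyp κs g₀ Λ Lc hK kI) (st : A.St T Qr Go)
    (hD : D ⊆ A.al T) : uu A T D Qr Go (0, 0) ≤ A.U T Qr Go := by
  obtain ⟨_, h2, h3, _, _⟩ := run_st hrun hy st hD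
  have hk : ∀ x, 0 ≤ A.k T x := fun x => (net_T hrun hy st).pos x |>.le
  have e1 : Gk A.Hm A.η A.e0 A.v T D (0, 0) = A.G T := h2
  unfold uu
  simp only
  rw [e1, h3]
  unfold Rn.U Pa.U
  simp only [mul_zero, sub_zero]
  have hsub : A.al T \ D ⊆ A.al T := Finset.sdiff_subset
  refine add_le_add (add_le_add ?_ ?_) ?_
  · exact le_rfl
  · refine Finset.sum_le_sum fun x _ => Real.exp_le_exp.2 ?_
    have := mul_le_mul_of_nonneg_left (mx_mono hk hsub (A.G T) Go x) hy.pos.2.2.2.2.2.2.2.2.1.le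
    show A.bum T x + A.lm * (mx (A.k T) (A.al T \ D) (A.G T) Go x - A.εm) ≤ _
    nlinarith
  · refine Real.exp_le_exp.2 ?_
    have := mul_le_mul_of_nonneg_left (MM_mono hk hsub (A.G T) Go)
      hy.pos.2.2.2.2.2.2.2.2.2.2.2.1.le
    show A.buM T + A.lM * (MM (A.k T) (A.al T \ D) (A.G T) Go - A.εM) ≤ _
    nlinarith

/-- the mass after the run is measurable -/
theorem meas_y (hrun : RunStmt) (hy : A.Hyp κs g₀ Λ Lc hK kI) (st : A.St T Qr Go)
    (hD : D ⊆ A.al T) (hal : ∀ ζ, A.al (T.kl D ζ) = A.al T \ D) (b : X) {θ : ℝ → ℝ}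
    (hθ : Continuous θ) : Measurable fun ζ : X → ℝ => A.y θ (T.kl D ζ) b := by
  obtain ⟨_, _, _, h4, h5⟩ := run_st hrun hy st hD
  have h6 : (fun ζ : X → ℝ => A.y θ (T.kl D ζ) b) = fun ζ => ∑ x ∈ A.al T \ D,
      θ (kr A.η A.e0 A.v T D A.v x * ‖A.G (T.kl D ζ) x b‖ ^ 2 / ∑ v ∈ Finset.univ.erase b,
        kr A.η A.e0 A.v T D A.v v * ‖A.G (T.kl D ζ) v b‖ ^ 2) := by
    funext ζ
    unfold Pa.y Pa.a aa gam nn
    rw [hal ζ, ← (h4 ζ).2]
  rw [h6]
  refine Finset.measurable_sum _ fun x _ => hθ.measurable.comp ?_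
  refine Measurable.div ?_ (Finset.measurable_sum _ fun v _ => ?_)
  · exact ((h5 x b).norm.pow_const 2).const_mul _
  · exact ((h5 v b).norm.pow_const 2).const_mul _

theorem yn_end (hrun : RunStmt) (hy : A.Hyp κs g₀ Λ Lc hK kI) (st : A.St T Qr Go)
    (hD : D ⊆ A.al T) (hal : ∀ ζ, A.al (T.kl D ζ) = A.al T \ D) (b : X) (θ : ℝ → ℝ) (V : D → ℝ) :
    yn (fun c : D => (c : X)) θ (A.al T) (kr A.η A.e0 A.v T D A.v)
      (Gk A.Hm A.η A.e0 A.v T D (A.v, V)) b = A.y θ (T.kl D (ext D V)) b := by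
  obtain ⟨_, _, _, h4, _⟩ := run_st hrun hy st hD
  obtain ⟨h5, h6⟩ := h4 (ext D V)
  rw [ext_res] at h5
  unfold yn
  rw [h5, h6, filt]
  unfold Pa.y
  rw [hal]
  rfl

end state

end Pool.Agent.ATT.H38
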