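import Pool.Agent.Helper38_ATT.PhB

/-!
# The phase: a round with a large killed mass
-/

set_option autoImplicit false

open MeasureTheory ProbabilityTheory Function Filter

open scoped ENNReal BigOperators Topology NNReal Matrix

noncomputable section

namespace Pool.Agent.ATT.H38

open Pool.Agent.LE.QF (HJ HM gG LL dC)
open Pool.Agent.KIL (KJ KGd Cut gam nn aa yn ym cu Ph Kr1Body)
open Pool.Agent.ANP (Cfg gm Att)

/-- the hypotheses on the other rows -/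
structure Rows : Prop where
  run : RunStmt
  gok : GokStmt
  msr : MsrStmt
  stk : StkStmt
  cup : CupStmt
  geq : ANR.GeqStmt
  dir : ANR.DirStmt

theorem lint3 {Ω : Type} [MeasurableSpace Ω] (μ : Measure Ω) [IsProbabilityMeasure μ]
    (c₁ c₂ c₃ : ℝ≥0∞) (f g : Ω → ℝ≥0∞) (hf : Measurable f) (hg : Measurable g) :
    ∫⁻ x, (c₁ + c₂ * f x + c₃ * g x) ∂μ = c₁ + c₂ * ∫⁻ x, f x ∂μ + c₃ * ∫⁻ x, g x ∂μ := by
  rw [lintegral_add_right _ (hg.const_mul _), lintegral_add_right _ (hf.const_mul _),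
    lintegral_const, measure_univ, mul_one, lintegral_const_mul _ hf, lintegral_const_mul _ hg]

variable {X : Type} [Fintype X] [DecidableEq X]

theorem round (H : Rows) {lam B ε₀ C : ℝ} (hb1 : Kr1Body ε₀ lam C B) (hlam : 0 < lam)
    (hB : 1 ≤ B) (A : Pa X) {κs g₀ Λ Lc hK kI : ℝ} (hy : A.Hyp κs g₀ Λ Lc hK kI) (T : Cfg X)
    (Qr D : Finset X) (Go : Matrix X X ℂ) (b : X) (st : A.St T Qr Go) (hb : b ∈ Qr)
    (hD : D ⊆ A.al T) (hDk : D ⊆ A.Rk) (hN : (A.kd T).card + D.card ≤ A.N)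
    (hcut : ∀ c ∈ A.al T, A.k A.T₀ b * ‖A.G A.T₀ b c‖ ^ 2 ≤ hK)
    (hgam : gam (A.k T) (A.G T) b ≠ 0) (t₀ ε ρ S r a M : ℝ) (θ : ℝ → ℝ) (hθ : Cut θ t₀ A.t₁ ε)
    (ht₀ : 0 < t₀) (ht : t₀ ≤ A.t₁) (ht1 : A.t₁ ≤ 1) (hε : 0 ≤ ε) (hε0 : ε ≤ ε₀)
    (hδ : 2 * A.δ / g₀ ≤ ε) (hκ : κs * Real.sqrt (2 / t₀ * Lc) / g₀ ≤ ε ^ 2)
    (hβ : C * A.δ ^ 2 * Real.sqrt (1 / t₀ * Real.sqrt (1 / t₀ * Lc)) / g₀ * A.v ≤ lam * ρ / 20)
    (hρ : 0 < ρ) (hr : r = ∑ x ∈ D, A.a T b x) (hDt : ∀ x ∈ D, A.t₁ ≤ A.a T b x)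
    (hrρ : ρ ≤ r) (hS : 40 * r ≤ S) (ha : 0 ≤ a) (hM : 0 ≤ M) (Okf : Cfg X → Prop)
    (hcont : ∀ ζ, Att A.Rk A.Q A.val Okf (T.kl D ζ) (ENNReal.ofReal (val lam B a M (S - r)
      (cu (A.U (T.kl D ζ) Qr Go)) (A.y θ (T.kl D ζ) b)))) :
    Att A.Rk A.Q A.val Okf T (ENNReal.ofReal (val lam B a M S (cu (A.U T Qr Go)) (A.y θ T b))) := by
  obtain ⟨q1, q2, q3, q4, q5⟩ := run_st H.run hy st hD
  obtain ⟨s1, s2, s3, s4⟩ := H.stk X A κs g₀ Λ Lc hK kI hy T Qr D Go st hD hDk hN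
  obtain ⟨c1, c2, c3, c4, c5⟩ := H.cup
  have hal : ∀ ζ, A.al (T.kl D ζ) = A.al T \ D := fun ζ => (s1 ζ).2.2.2.2
  have hv : (0 : ℝ) < A.v := by exact_mod_cast hy.pos.2.2.1
  have hDv : ∀ c ∈ D, T.s c = A.v := fun c hc => (st_al st (hD hc)).2
  have hgok := H.gok X A κs g₀ Λ Lc hK kI hy T Qr D Go b st hb hD hN hcut
  obtain ⟨m1, m2, m3, m4⟩ := mass_T H.run hy st hb hθ
  -- the number of killed sites
  have hcard : (Fintype.card D : ℝ) ≤ 1 / t₀ := by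
    rw [Fintype.card_coe, le_div_iff₀ ht₀]
    calc (D.card : ℝ) * t₀ = ∑ x ∈ D, t₀ := by rw [Finset.sum_const, nsmul_eq_mul]
      _ ≤ ∑ x ∈ D, A.a T b x := Finset.sum_le_sum fun x hx => ht.trans (hDt x hx)
      _ ≤ ∑ x ∈ A.al T, A.a T b x := Finset.sum_le_sum_of_subset_of_nonneg hD fun x _ _ => m1 x
      _ ≤ 1 := m2
  set m : ℝ := Real.exp (-(lam * (S - r) / 20)) with hm
  set β : ℝ := C * A.δ ^ 2 * Real.sqrt (1 / t₀ * Real.sqrt (1 / t₀ * Lc)) / g₀ with hβd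
  have hm0 : 0 ≤ m := (Real.exp_pos _).le
  have hr0 : 0 < r := lt_of_lt_of_le hρ hrρ
  have hSr : 0 ≤ S - r := by linarith
  have hm1 : m ≤ 1 := by
    rw [hm, Real.exp_le_one_iff]
    have := mul_nonneg hlam.le hSr
    linarith
  have hmβ : m * Real.exp (β * A.v) ≤ 1 := by
    rw [hm, ← Real.exp_add, Real.exp_le_one_iff]
    have : lam * ρ ≤ lam * (S - r) := mul_le_mul_of_nonneg_left (by linarith) hlam.le
    linarith
  have key := hb1 D X (fun c : D => (c : X)) (Gk A.Hm A.η A.e0 A.v T D) (kr A.η A.e0 A.v T D)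
    (fun x => (mg A.η A.e0 A.v T x).im)
    (fun r c => Gk A.Hm A.η A.e0 A.v T D r c c - mg A.η A.e0 A.v T c) (A.al T) b A.v κs g₀ A.δ Lc t₀
    A.t₁ ε β m θ (uu A T D Qr Go) (fun _ => 0) hv ht₀ ht ht1 hε hε0 hθ continuous_const
    (fun _ => le_rfl) hcard hδ hκ rfl hm0 hmβ (fun q h0 h1 => ?_) (fun c => hD c.2)
    (b_notin hy st hb)
  swap
  · obtain ⟨g1, g2, g3⟩ := hgok q h0 h1
    exact ⟨(q1 q h0 h1).1, fun v => ((q1 q h0 h1).2 v).le,
      gam_run H.run H.geq H.dir hy st hD hgam q h0 h1, g1, g2, fun hlt =>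
        ⟨(g3 hlt).1, (g3 hlt).2.1⟩⟩
  -- the function after the run
  set h : (X → ℝ) → ℝ := fun ζ => (1 - cu (A.Ue T D Qr Go ζ)) * (m * Real.exp (lam *
    (3 * A.y θ (T.kl D ζ) b - A.y θ (T.kl D ζ) b ^ 2 - 2))) + B * cu (A.Ue T D Qr Go ζ) with hh
  have hUe0 : ∀ ζ, 0 ≤ A.Ue T D Qr Go ζ := fun ζ => (s1 ζ).2.1.trans (s1 ζ).2.2.1
  have hy1 : ∀ ζ, 0 ≤ A.y θ (T.kl D ζ) b ∧ A.y θ (T.kl D ζ) b ≤ 1 := fun ζ =>
    (mass_T H.run hy (s1 ζ).1 hb hθ).2.2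
  have hE1 : ∀ ζ, m * Real.exp (lam * (3 * A.y θ (T.kl D ζ) b - A.y θ (T.kl D ζ) b ^ 2 - 2)) =
      Real.exp (lam * (3 * A.y θ (T.kl D ζ) b - A.y θ (T.kl D ζ) b ^ 2 - 2) -
        lam * (S - r) / 20) := by
    intro ζ
    rw [hm, ← Real.exp_add]
    congr 1
    ring
  have hE2 : ∀ ζ, m * Real.exp (lam * (3 * A.y θ (T.kl D ζ) b - A.y θ (T.kl D ζ) b ^ 2 - 2)) ≤ 1 :=
    fun ζ => by rw [hE1]; exact exp_le_one' hlam (hy1 ζ).2 hSr
  have hE0 : ∀ ζ, 0 ≤ m * Real.exp (lam * (3 * A.y θ (T.kl D ζ) b -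
      A.y θ (T.kl D ζ) b ^ 2 - 2)) := fun ζ => mul_nonneg hm0 (Real.exp_pos _).le
  have hcu : Measurable cu := c1.continuous.measurable
  have hmeasy := meas_y H.run hy st hD hal b hθ.sm.continuous
  have hhm : Measurable h := by
    rw [hh]
    have e1 : Measurable fun ζ => cu (A.Ue T D Qr Go ζ) := hcu.comp s3
    exact ((measurable_const.sub e1).mul (measurable_const.mul (Real.measurable_exp.comp
      (measurable_const.mul (((measurable_const.mul hmeasy).sub (hmeasy.pow_const 2)).sub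
        measurable_const))))).add (measurable_const.mul e1)
  have hh0 : ∀ ζ, 0 ≤ h ζ := by
    intro ζ
    obtain ⟨d1, d2, _⟩ := c3 _ (hUe0 ζ)
    exact add_nonneg (mul_nonneg (sub_nonneg.2 d2) (hE0 ζ)) (mul_nonneg (by linarith) d1)
  have hh1 : ∀ ζ, h ζ ≤ 1 + B := by
    intro ζ
    obtain ⟨d1, d2, _⟩ := c3 _ (hUe0 ζ)
    have e1 : (1 - cu (A.Ue T D Qr Go ζ)) * (m * Real.exp (lam *
      (3 * A.y θ (T.kl D ζ) b - A.y θ (T.kl D ζ) b ^ 2 - 2))) ≤ 1 * 1 :=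
      mul_le_mul (by linarith) (hE2 ζ) (hE0 ζ) zero_le_one
    have e2 : B * cu (A.Ue T D Qr Go ζ) ≤ B * 1 := mul_le_mul_of_nonneg_left d2 (by linarith)
    simp only [hh]
    linarith
  have hres : ∀ ζ ζ', (∀ c ∈ D, ζ c = ζ' c) → h ζ = h ζ' := by
    intro ζ ζ' hz
    simp only [hh, Pa.Ue, kl_congr T D ζ ζ' hz]
  have hint := lint_real H.msr T D A.v hDv h hhm (1 + B) hh0 hh1 hres
  have e1 : ∫ V, h (ext D V) ∂(Measure.pi fun _ : D => gaussianReal 0 A.v) =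
      ∫ V, ((1 - cu (uu A T D Qr Go (A.v, V))) * (m * Real.exp (lam * (3 * yn (fun c : D => (c : X)) θ
        (A.al T) (kr A.η A.e0 A.v T D A.v) (Gk A.Hm A.η A.e0 A.v T D (A.v, V)) b -
          yn (fun c : D => (c : X)) θ (A.al T) (kr A.η A.e0 A.v T D A.v)
            (Gk A.Hm A.η A.e0 A.v T D (A.v, V)) b ^ 2 - 2))) + B * cu (uu A T D Qr Go (A.v, V)))
          ∂(Measure.pi fun _ : D => gaussianReal 0 (A.v : ℝ).toNNReal) := by
    rw [Real.toNNReal_coe]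
    refine integral_congr_ae (Eventually.of_forall fun V => ?_)
    simp only [hh]
    rw [uu_end H.run hy st hD V, yn_end H.run hy st hD hal b θ V]
  rw [e1] at hint
  -- the value at the start
  have hc0 : 0 ≤ uu A T D Qr Go (0, 0) := (hgok (0, 0) le_rfl hv.le).1
  have hcm : cu (uu A T D Qr Go (0, 0)) ≤ cu (A.U T Qr Go) := c2 (uu_start H.run hy st hD)
  have hUT0 : 0 ≤ A.U T Qr Go := hc0.trans (uu_start H.run hy st hD)
  obtain ⟨d1, d2, _⟩ := c3 _ hc0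
  obtain ⟨d3, d4, _⟩ := c3 _ hUT0
  have hPh : Ph (fun c : D => (c : X)) θ (A.al T) (kr A.η A.e0 A.v T D 0)
      (Gk A.Hm A.η A.e0 A.v T D (0, 0)) b = 3 * A.y θ T b - A.y θ T b ^ 2 - r / 10 := by
    have f1 : Gk A.Hm A.η A.e0 A.v T D (0, 0) = A.G T := q2
    have f2 : ∑ c : D, aa (A.k T) (A.G T) b c = r := by
      rw [hr]
      exact Finset.sum_coe_sort D (fun x => aa (A.k T) (A.G T) b x)
    have f3 : ym (fun c : D => (c : X)) θ (A.al T) (A.k T) (A.G T) b = A.y θ T b := by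
      unfold ym
      rw [filt, f2, hr]
      unfold Pa.y
      rw [← Finset.sum_sdiff hD, add_comm]
      congr 1
      exact Finset.sum_congr rfl fun x hx => (hθ.hi _ (hDt x hx)).symm
    unfold Ph
    rw [f1, q3, f2, f3]
  rw [hPh] at key
  simp only [intervalIntegral.integral_zero, mul_zero, add_zero] at key
  have hstart : (1 - cu (uu A T D Qr Go (0, 0))) * (m * Real.exp (β * A.v +
      lam * (3 * A.y θ T b - A.y θ T b ^ 2 - r / 10 - 2))) + B * cu (uu A T D Qr Go (0, 0)) ≤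
      (1 - cu (A.U T Qr Go)) * Real.exp (lam * (3 * A.y θ T b - A.y θ T b ^ 2 - 2) - lam * S / 20) +
        B * cu (A.U T Qr Go) := by
    have f1 : m * Real.exp (β * A.v + lam * (3 * A.y θ T b - A.y θ T b ^ 2 - r / 10 - 2)) ≤
        Real.exp (lam * (3 * A.y θ T b - A.y θ T b ^ 2 - 2) - lam * S / 20) := by
      rw [hm, ← Real.exp_add]
      refine Real.exp_le_exp.2 ?_
      have : lam * ρ ≤ lam * r := mul_le_mul_of_nonneg_left hrρ hlam.le
      linarith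
    have f2 := exp_le_one' (y := A.y θ T b) (S := S) hlam m4 (by linarith)
    have f3 := mul_le_mul_of_nonneg_left f1 (sub_nonneg.2 d2)
    nlinarith
  have hfin := key.trans hstart
  -- the kill
  have hatt := Att.kill (R := A.Rk) (Q := A.Q) (v := A.val) (Ok := Okf) T D (fun ζ =>
    ENNReal.ofReal a + ENNReal.ofReal M * ENNReal.ofReal (cu (A.Ue T D Qr Go ζ)) +
      ENNReal.ofReal (Real.exp (2 * lam)) * ENNReal.ofReal (h ζ)) hDk
    (fun x hx => by rw [hDv x hx]; exact hy.pos.2.2.1) ?_ ?_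
  · refine Att.mono T _ _ ?_ hatt
    have g1 : Measurable fun ζ => ENNReal.ofReal (cu (A.Ue T D Qr Go ζ)) :=
      ENNReal.measurable_ofReal.comp (hcu.comp s3)
    have g2 : Measurable fun ζ => ENNReal.ofReal (h ζ) := ENNReal.measurable_ofReal.comp hhm
    rw [lint3 _ _ _ _ _ _ g1 g2, hint]
    unfold val
    rw [ENNReal.ofReal_add (by positivity) (mul_nonneg (Real.exp_pos _).le (add_nonneg
      (mul_nonneg (sub_nonneg.2 d4) (Real.exp_pos _).le) (mul_nonneg (by linarith) d3))),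
      ENNReal.ofReal_add ha (mul_nonneg hM d3), ENNReal.ofReal_mul hM,
      ENNReal.ofReal_mul (Real.exp_pos _).le]
    gcongr
  · have g1 : Measurable fun ζ => ENNReal.ofReal (cu (A.Ue T D Qr Go ζ)) :=
      ENNReal.measurable_ofReal.comp (hcu.comp s3)
    have g2 : Measurable fun ζ => ENNReal.ofReal (h ζ) := ENNReal.measurable_ofReal.comp hhm
    exact (measurable_const.add (g1.const_mul _)).add (g2.const_mul _)
  · intro ζ
    refine Att.mono _ _ _ ?_ (hcont ζ)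
    obtain ⟨e3, e4, _⟩ := c3 _ (hUe0 ζ)
    have f1 := val_mono (a := a) (M := M) (S := S - r) (y := A.y θ (T.kl D ζ) b) hlam hB hM
      (hy1 ζ).2 hSr (c2 (s1 ζ).2.2.1)
    refine (ENNReal.ofReal_le_ofReal f1).trans ?_
    unfold val
    rw [← hE1 ζ, ENNReal.ofReal_add (by positivity) (mul_nonneg (Real.exp_pos _).le (hh0 ζ)),
      ENNReal.ofReal_add ha (mul_nonneg hM e3), ENNReal.ofReal_mul hM,
      ENNReal.ofReal_mul (Real.exp_pos _).le]

end Pool.Agent.ATT.H38
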