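import Pool.Agent.Helper38_ATT.PhC

/-!
# The phase: the last round
-/

set_option autoImplicit false

open MeasureTheory ProbabilityTheory Function Filter

open scoped ENNReal BigOperators Topology NNReal Matrix

noncomputable section

namespace Pool.Agent.ATT.H38

open Pool.Agent.LE.QF (HJ HM gG LL dC)
open Pool.Agent.KIL (KJ KGd Cut gam nn aa yn ym cu Ph uL KlrStmt)
open Pool.Agent.ANP (Cfg gm Att)

variable {X : Type} [Fintype X] [DecidableEq X]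

/-- the functional of the last round at the end -/
def uE (A : Pa X) (T : Cfg X) (D : Finset X) (b : X) (ρ : ℝ) (j : ℕ) (ζ : X → ℝ) : ℝ :=
  uL (fun c : D => (c : X)) (A.al T \ D) (j / (4 * ρ)) ρ A.t₁ j (A.k (T.kl D ζ))
    (A.G (T.kl D ζ)) b

theorem meas_uE (hrun : RunStmt) {A : Pa X} {κs g₀ Λ Lc hK kI : ℝ}
    (hy : A.Hyp κs g₀ Λ Lc hK kI) {T : Cfg X} {Qr D : Finset X} {Go : Matrix X X ℂ}
    (st : A.St T Qr Go) (hD : D ⊆ A.al T) (b : X) (ρ : ℝ) (j : ℕ) :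
    Measurable (uE A T D b ρ j) := by
  obtain ⟨_, _, _, h4, h5⟩ := run_st hrun hy st hD
  have h6 : ∀ x, Measurable fun ζ : X → ℝ => aa (A.k (T.kl D ζ)) (A.G (T.kl D ζ)) b x := by
    intro x
    have h7 : (fun ζ : X → ℝ => aa (A.k (T.kl D ζ)) (A.G (T.kl D ζ)) b x) = fun ζ =>
      kr A.η A.e0 A.v T D A.v x * ‖A.G (T.kl D ζ) x b‖ ^ 2 / ∑ v ∈ Finset.univ.erase b,
        kr A.η A.e0 A.v T D A.v v * ‖A.G (T.kl D ζ) v b‖ ^ 2 := by
      funext ζ
      unfold aa gam nn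
      rw [← (h4 ζ).2]
    rw [h7]
    refine Measurable.div ?_ (Finset.measurable_sum _ fun v _ => ?_)
    · exact ((h5 x b).norm.pow_const 2).const_mul _
    · exact ((h5 v b).norm.pow_const 2).const_mul _
  have h8 : Measurable fun ζ : X → ℝ => ∑ c : D, aa (A.k (T.kl D ζ)) (A.G (T.kl D ζ)) b c :=
    Finset.measurable_sum _ fun c _ => h6 c
  unfold uE uL
  refine Measurable.add ?_ (Measurable.mul ?_ ?_)
  · exact Real.measurable_exp.comp (measurable_const.mul (h8.sub_const _))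
  · exact Real.measurable_exp.comp (measurable_const.mul h8)
  · exact Finset.measurable_sum _ fun v _ => (((h6 v).add_const _).div_const _).pow_const _

theorem last (H : Rows) (hklr : KlrStmt) (A : Pa X) {κs g₀ Λ Lc hK kI : ℝ}
    (hy : A.Hyp κs g₀ Λ Lc hK kI) (T : Cfg X)
    (Qr D : Finset X) (Go : Matrix X X ℂ) (b : X) (st : A.St T Qr Go) (hb : b ∈ Qr)
    (hD : D ⊆ A.al T) (hDk : D ⊆ A.Rk) (hN : (A.kd T).card + D.card ≤ A.N)
    (hcut : ∀ c ∈ A.al T, A.k A.T₀ b * ‖A.G A.T₀ b c‖ ^ 2 ≤ hK)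
    (hgam : gam (A.k T) (A.G T) b ≠ 0) (hDn : D.Nonempty) (ρ ε bL a M : ℝ) (j : ℕ)
    (ht1 : A.t₁ ≤ 1) (hρ : 0 < ρ) (hj : 1 ≤ j) (hε : 0 ≤ ε) (hε1 : ε ≤ 1 / 16)
    (hδ : 2 * A.δ / g₀ ≤ ε) (hκ : κs * Real.sqrt (1 / A.t₁ * Lc) / g₀ ≤ ε ^ 2)
    (hn1 : j * (4 * ε ^ 2 + 16 * ρ) ≤ 1 / 8)
    (hn2 : 300 * j * (2 * (κs * kI / g₀) / A.t₁ + 1) * ρ ≤ 1)
    (hn3 : 20 * j * A.δ ^ 2 * Real.sqrt (1 / A.t₁ * Real.sqrt (1 / A.t₁ * Lc)) / (ρ * g₀) +
        128 * j * ρ * A.δ ^ 2 * (1 / A.t₁) * (κs * kI / g₀) / A.t₁ ≤ bL)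
    (hDt : ∀ x ∈ D, A.t₁ ≤ A.a T b x) (hDt' : ∀ x ∈ A.al T \ D, A.a T b x ≤ A.t₁)
    (hr : ∑ x ∈ D, A.a T b x ≤ ρ) (ha : 0 ≤ a) (hM : 0 ≤ M) (Okf : Cfg X → Prop)
    (hcont : ∀ ζ, A.U (T.kl D ζ) Qr Go < 1 →
      (∀ x ∈ A.al (T.kl D ζ), A.a (T.kl D ζ) b x ≤ 2 * A.t₁) →
      Att A.Rk A.Q A.val Okf (T.kl D ζ) (ENNReal.ofReal (a + M * cu (A.U (T.kl D ζ) Qr Go)))) :
    Att A.Rk A.Q A.val Okf T (ENNReal.ofReal (a + 3 * Real.exp (A.v * bL) *
      ((1 + A.R.card) * Real.exp (-(j : ℝ) / 5)) + (M + 1) * cu (A.U T Qr Go))) := by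
  obtain ⟨q1, q2, q3, q4, q5⟩ := run_st H.run hy st hD
  obtain ⟨s1, s2, s3, s4⟩ := H.stk X A κs g₀ Λ Lc hK kI hy T Qr D Go st hD hDk hN
  obtain ⟨c1, c2, c3, c4, c5⟩ := H.cup
  have hal : ∀ ζ, A.al (T.kl D ζ) = A.al T \ D := fun ζ => (s1 ζ).2.2.2.2
  have hv : (0 : ℝ) < A.v := by exact_mod_cast hy.pos.2.2.1
  have ht₁ : 0 < A.t₁ := hy.pos.2.2.2.2.1
  have hg₀ : 0 < g₀ := hy.pos.2.2.2.1
  have hDv : ∀ c ∈ D, T.s c = A.v := fun c hc => (st_al st (hD hc)).2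
  have hgok := H.gok X A κs g₀ Λ Lc hK kI hy T Qr D Go b st hb hD hN hcut
  have hNet := net_T H.run hy st
  have hann : ∀ (T' : Cfg X), A.St T' Qr Go → ∀ x, 0 ≤ A.a T' b x := by
    intro T' st' x
    have hN' := net_T H.run hy st'
    exact div_nonneg (mul_nonneg (hN'.pos x).le (by positivity))
      (Finset.sum_nonneg fun v _ => mul_nonneg (hN'.pos v).le (by positivity))
  have m1 := hann T st
  have m2 : ∑ x ∈ A.al T, A.a T b x ≤ 1 := by
    have h1 : ∑ x ∈ A.al T, A.a T b x ≤ ∑ x ∈ Finset.univ.erase b, A.a T b x :=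
      Finset.sum_le_sum_of_subset_of_nonneg (fun x hx => Finset.mem_erase.2
        ⟨fun h => b_notin hy st hb (h ▸ hx), Finset.mem_univ _⟩) fun x _ _ => m1 x
    refine h1.trans ?_
    unfold Pa.a aa
    rw [← Finset.sum_div]
    exact div_self_le_one _
  -- the number of killed sites
  have hcard : (Fintype.card D : ℝ) ≤ 1 / A.t₁ := by
    rw [Fintype.card_coe, le_div_iff₀ ht₁]
    calc (D.card : ℝ) * A.t₁ = ∑ x ∈ D, A.t₁ := by rw [Finset.sum_const, nsmul_eq_mul]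
      _ ≤ ∑ x ∈ D, A.a T b x := Finset.sum_le_sum fun x hx => hDt x hx
      _ ≤ ∑ x ∈ A.al T, A.a T b x := Finset.sum_le_sum_of_subset_of_nonneg hD fun x _ _ => m1 x
      _ ≤ 1 := m2
  obtain ⟨x₀, hx₀⟩ := hDn
  have hx₀R : x₀ ∈ A.R := al_sub (hD hx₀)
  have hκs : 0 ≤ κs := by
    have h1 := (hy.hR x₀ hx₀R).2.2
    have h2 : 0 ≤ A.k A.T₀ x₀ := by
      unfold Pa.k ka
      split_ifs with h
      · exact hy.pos.1.le
      · have h3 := hy.pimb x₀ (pos_iff_ne_zero.2 h)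
        have h4 := hy.pos.1.le.trans hy.pos.2.1
        positivity
    linarith
  have hkI : 0 ≤ kI := (sq_nonneg _).trans (hy.ent x₀ hx₀R x₀ hx₀R)
  have hLc : 0 ≤ Lc := by
    have h1 := hy.lc x₀ hx₀R
    have h2 : 0 ≤ Λ := (Finset.sum_nonneg fun y _ => by positivity).trans (hy.lam x₀ hx₀R)
    have h3 : 0 < A.v * g₀ := mul_pos hv hg₀
    refine le_trans ?_ h1
    positivity
  have hc0 : (0 : ℝ) ≤ Fintype.card D := Nat.cast_nonneg _
  have hh0 : 0 ≤ κs * kI / g₀ := by positivity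
  have hbL : 0 ≤ bL := by
    refine le_trans ?_ hn3
    positivity
  have key := hklr D X (fun c : D => (c : X)) (Gk A.Hm A.η A.e0 A.v T D) (kr A.η A.e0 A.v T D)
    (fun x => (mg A.η A.e0 A.v T x).im)
    (fun r c => Gk A.Hm A.η A.e0 A.v T D r c c - mg A.η A.e0 A.v T c) (A.al T) (A.al T \ D) b A.v κs
    g₀ A.δ Lc kI A.t₁ ρ ε (κs * kI / g₀) bL (j / (4 * ρ)) j (uu A T D Qr Go) (fun _ => 0) hv
    Finset.sdiff_subset (fun c hc => (Finset.mem_sdiff.1 hc).2 c.2) (fun c => hD c.2)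
    (b_notin hy st hb) hkI hj ht₁ ht1 hρ hε hε1 hδ
    (le_trans (by gcongr) hκ) rfl rfl hn1 hn2 hbL (le_trans (by gcongr) hn3) continuous_const
    (fun _ => le_rfl) (fun q h0 h1 => ?_) ?_ ?_
  rotate_left
  · obtain ⟨g1, g2, g3⟩ := hgok q h0 h1
    exact ⟨(q1 q h0 h1).1, fun v => ((q1 q h0 h1).2 v).le,
      gam_run H.run H.geq H.dir hy st hD hgam q h0 h1, g1, g2, fun hlt =>
        ⟨(g3 hlt).1, (g3 hlt).2.1, fun v hv c => (g3 hlt).2.2 v (Finset.mem_sdiff.1 hv).1 c⟩⟩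
  · have f1 : Gk A.Hm A.η A.e0 A.v T D (0, 0) = A.G T := q2
    rw [f1, q3]
    refine le_trans (le_of_eq ?_) hr
    exact Finset.sum_coe_sort D (fun x => aa (A.k T) (A.G T) b x)
  · have f1 : Gk A.Hm A.η A.e0 A.v T D (0, 0) = A.G T := q2
    rw [f1, q3]
    exact hDt'
  -- the function after the run
  set h : (X → ℝ) → ℝ := fun ζ => cu (A.Ue T D Qr Go ζ + uE A T D b ρ j ζ) with hh
  have hUe0 : ∀ ζ, 0 ≤ A.Ue T D Qr Go ζ := fun ζ => (s1 ζ).2.1.trans (s1 ζ).2.2.1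
  have huE0 : ∀ ζ, 0 ≤ uE A T D b ρ j ζ := by
    intro ζ
    unfold uE uL
    refine add_nonneg (Real.exp_pos _).le (mul_nonneg (Real.exp_pos _).le
      (Finset.sum_nonneg fun v _ => pow_nonneg (div_nonneg ?_ (by positivity)) _))
    have := hann _ (s1 ζ).1 v
    unfold Pa.a at this
    linarith
  have hcu : Measurable cu := c1.continuous.measurable
  have hhm : Measurable h := hcu.comp (s3.add (meas_uE H.run hy st hD b ρ j))
  have hh0' : ∀ ζ, 0 ≤ h ζ := fun ζ => (c3 _ (add_nonneg (hUe0 ζ) (huE0 ζ))).1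
  have hh1 : ∀ ζ, h ζ ≤ 1 := fun ζ => (c3 _ (add_nonneg (hUe0 ζ) (huE0 ζ))).2.1
  have hres : ∀ ζ ζ', (∀ c ∈ D, ζ c = ζ' c) → h ζ = h ζ' := by
    intro ζ ζ' hz
    simp only [hh, Pa.Ue, uE, kl_congr T D ζ ζ' hz]
  have hint := lint_real H.msr T D A.v hDv h hhm 1 hh0' hh1 hres
  have e1 : ∫ V, h (ext D V) ∂(Measure.pi fun _ : D => gaussianReal 0 A.v) =
      ∫ V, cu (uu A T D Qr Go (A.v, V) + uL (fun c : D => (c : X)) (A.al T \ D) (j / (4 * ρ)) ρ A.t₁ j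
        (kr A.η A.e0 A.v T D A.v) (Gk A.Hm A.η A.e0 A.v T D (A.v, V)) b)
          ∂(Measure.pi fun _ : D => gaussianReal 0 (A.v : ℝ).toNNReal) := by
    rw [Real.toNNReal_coe]
    refine integral_congr_ae (Eventually.of_forall fun V => ?_)
    obtain ⟨h5, h6⟩ := q4 (ext D V)
    rw [ext_res] at h5
    simp only [hh]
    rw [uu_end H.run hy st hD V, h5, h6]
    rfl
  rw [e1] at hint
  have hcm : cu (uu A T D Qr Go (0, 0)) ≤ cu (A.U T Qr Go) := c2 (uu_start H.run hy st hD)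
  have hUT0 : 0 ≤ A.U T Qr Go :=
    ((hgok (0, 0) le_rfl hv.le).1).trans (uu_start H.run hy st hD)
  obtain ⟨d3, d4, _⟩ := c3 _ hUT0
  simp only [intervalIntegral.integral_zero, mul_zero, add_zero] at key
  have hB : ((A.al T \ D).card : ℝ) ≤ A.R.card := by
    exact_mod_cast Finset.card_le_card (Finset.sdiff_subset.trans al_sub)
  have hfin : ∫ V, cu (uu A T D Qr Go (A.v, V) + uL (fun c : D => (c : X)) (A.al T \ D)
      (j / (4 * ρ)) ρ A.t₁ j (kr A.η A.e0 A.v T D A.v) (Gk A.Hm A.η A.e0 A.v T D (A.v, V)) b)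
          ∂(Measure.pi fun _ : D => gaussianReal 0 (A.v : ℝ).toNNReal) ≤
      cu (A.U T Qr Go) + 3 * Real.exp (A.v * bL) * ((1 + A.R.card) * Real.exp (-(j : ℝ) / 5)) := by
    refine key.trans (add_le_add hcm ?_)
    gcongr
  -- the kill
  have g1 : Measurable fun ζ => ENNReal.ofReal (cu (A.Ue T D Qr Go ζ)) :=
    ENNReal.measurable_ofReal.comp (hcu.comp s3)
  have g2 : Measurable fun ζ => ENNReal.ofReal (h ζ) := ENNReal.measurable_ofReal.comp hhm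
  have hatt := Att.kill (R := A.Rk) (Q := A.Q) (v := A.val) (Ok := Okf) T D (fun ζ =>
    ENNReal.ofReal a + ENNReal.ofReal M * ENNReal.ofReal (cu (A.Ue T D Qr Go ζ)) +
      1 * ENNReal.ofReal (h ζ)) hDk
    (fun x hx => by rw [hDv x hx]; exact hy.pos.2.2.1)
    ((measurable_const.add (g1.const_mul _)).add (g2.const_mul _)) ?_
  · refine Att.mono T _ _ ?_ hatt
    rw [lint3 _ _ _ _ _ _ g1 g2, hint, one_mul]
    have f1 : a + 3 * Real.exp (A.v * bL) * ((1 + A.R.card) * Real.exp (-(j : ℝ) / 5)) +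
        (M + 1) * cu (A.U T Qr Go) = a + M * cu (A.U T Qr Go) + (cu (A.U T Qr Go) +
          3 * Real.exp (A.v * bL) * ((1 + A.R.card) * Real.exp (-(j : ℝ) / 5))) := by ring
    rw [f1, ENNReal.ofReal_add (by positivity) (by positivity),
      ENNReal.ofReal_add ha (mul_nonneg hM d3), ENNReal.ofReal_mul hM]
    gcongr
  · intro ζ
    obtain ⟨st', u0, u1, _, u3⟩ := s1 ζ
    rcases le_or_gt 1 (A.Ue T D Qr Go ζ + uE A T D b ρ j ζ) with h1 | h1
    · refine Att.mono _ _ _ ?_ (Att.one _)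
      have h2 : h ζ = 1 := c4 _ h1
      rw [h2, ENNReal.ofReal_one, one_mul]
      exact le_add_self
    · have h2 : A.U (T.kl D ζ) Qr Go < 1 := by
        have := huE0 ζ
        linarith
      have h3 : uE A T D b ρ j ζ < 1 := by
        have := hUe0 ζ
        linarith
      have hlight : ∀ x ∈ A.al (T.kl D ζ), A.a (T.kl D ζ) b x ≤ 2 * A.t₁ := by
        intro x hx
        rw [u3] at hx
        by_contra hcon
        rw [not_le] at hcon
        refine absurd h3 (not_lt.2 ?_)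
        have hnn : ∀ v, 0 ≤ aa (A.k (T.kl D ζ)) (A.G (T.kl D ζ)) b v := hann _ st'
        have hpw : ∀ v ∈ A.al T \ D, 0 ≤ ((aa (A.k (T.kl D ζ)) (A.G (T.kl D ζ)) b v + A.t₁ / 2) /
            (5 * A.t₁ / 2)) ^ j := fun v _ =>
          pow_nonneg (div_nonneg (by have := hnn v; linarith) (by positivity)) _
        have h4 : 1 ≤ ((aa (A.k (T.kl D ζ)) (A.G (T.kl D ζ)) b x + A.t₁ / 2) /
            (5 * A.t₁ / 2)) ^ j := by
          refine one_le_pow₀ ?_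
          rw [le_div_iff₀ (by positivity)]
          unfold Pa.a at hcon
          linarith
        have h5 := h4.trans (Finset.single_le_sum hpw hx)
        have h6 : 1 ≤ Real.exp (j / (4 * ρ) * ∑ c : D, aa (A.k (T.kl D ζ)) (A.G (T.kl D ζ)) b c) := by
          refine Real.one_le_exp (mul_nonneg (by positivity) (Finset.sum_nonneg fun c _ => hnn _))
        unfold uE uL
        have h7 := Real.exp_pos (j / (4 * ρ) * (∑ c : D, aa (A.k (T.kl D ζ)) (A.G (T.kl D ζ)) b c -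
          2 * ρ))
        nlinarith
      refine Att.mono _ _ _ ?_ (hcont ζ h2 hlight)
      have h4 := (c3 _ u0).1
      rw [ENNReal.ofReal_add ha (mul_nonneg hM h4), ENNReal.ofReal_mul hM]
      refine le_trans ?_ le_self_add
      gcongr
      exact c2 u1

end Pool.Agent.ATT.H38
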