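import Pool.Agent.Helper38_ATT.PhD

/-!
# The phase of one site
-/

set_option autoImplicit false

open MeasureTheory ProbabilityTheory Function Filter

open scoped ENNReal BigOperators Topology NNReal Matrix

noncomputable section

namespace Pool.Agent.ATT.H38

open Pool.Agent.LE.QF (HJ HM gG LL dC)
open Pool.Agent.KIL (KJ KGd Cut gam nn aa yn ym cu Ph uL KlrStmt Kr1Stmt Kr1Body KthStmt)
open Pool.Agent.ANP (Cfg gm Att)

section

variable {X : Type} [Fintype X] [DecidableEq X]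

theorem U_nonneg (A : Pa X) (T : Cfg X) (Qr : Finset X) (Go : Matrix X X ℂ) :
    0 ≤ A.U T Qr Go := by
  unfold Pa.U
  have h1 : ∀ (l B : ℝ) (z : ℂ), 0 ≤ pe l B z := by
    intro l B z
    unfold pe
    have h2 := Real.cosh_pos (l * z.re)
    have h3 := Real.cosh_pos (l * z.im)
    positivity
  refine add_nonneg (add_nonneg (Finset.sum_nonneg fun x _ => Finset.sum_nonneg fun y _ => h1 _ _ _)
    (Finset.sum_nonneg fun x _ => (Real.exp_pos _).le)) (Real.exp_pos _).le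

theorem phase (H : Rows) (hklr : KlrStmt) {lam B ε₀ C : ℝ} (hb1 : Kr1Body ε₀ lam C B)
    (hlam : 0 < lam) (hB : 1 ≤ B) (A : Pa X) {κs g₀ Λ Lc hK kI : ℝ}
    (hy : A.Hyp κs g₀ Λ Lc hK kI) (Qr : Finset X) (Go : Matrix X X ℂ) (b : X) (hb : b ∈ Qr)
    (t₀ εc ρ ε bL a M Nr : ℝ) (j : ℕ) (θ : ℝ → ℝ) (hθ : Cut θ t₀ A.t₁ εc) (ht₀ : 0 < t₀)
    (ht : t₀ ≤ A.t₁) (ht1 : A.t₁ ≤ 1) (hεc : 0 ≤ εc) (hεc0 : εc ≤ ε₀)
    (hδc : 2 * A.δ / g₀ ≤ εc) (hκc : κs * Real.sqrt (2 / t₀ * Lc) / g₀ ≤ εc ^ 2)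
    (hβ : C * A.δ ^ 2 * Real.sqrt (1 / t₀ * Real.sqrt (1 / t₀ * Lc)) / g₀ * A.v ≤ lam * ρ / 20)
    (hρ : 0 < ρ) (hj : 1 ≤ j) (hε : 0 ≤ ε) (hε1 : ε ≤ 1 / 16)
    (hδ : 2 * A.δ / g₀ ≤ ε) (hκ : κs * Real.sqrt (1 / A.t₁ * Lc) / g₀ ≤ ε ^ 2)
    (hn1 : j * (4 * ε ^ 2 + 16 * ρ) ≤ 1 / 8)
    (hn2 : 300 * j * (2 * (κs * kI / g₀) / A.t₁ + 1) * ρ ≤ 1)
    (hn3 : 20 * j * A.δ ^ 2 * Real.sqrt (1 / A.t₁ * Real.sqrt (1 / A.t₁ * Lc)) / (ρ * g₀) +
        128 * j * ρ * A.δ ^ 2 * (1 / A.t₁) * (κs * kI / g₀) / A.t₁ ≤ bL)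
    (ha : 0 ≤ a) (hM : 0 ≤ M) (Okf : Cfg X → Prop) (T₁ : Cfg X) (hNr : Nr ≤ A.N)
    (hcut : ∀ c ∈ A.al T₁, A.k A.T₀ b * ‖A.G A.T₀ b c‖ ^ 2 ≤ hK)
    (hcont : ∀ T', A.St T' Qr Go → A.al T' ⊆ A.al T₁ → ((A.kd T').card : ℝ) ≤ Nr →
      A.U T' Qr Go < 1 → (∀ x ∈ A.al T', A.a T' b x ≤ 2 * A.t₁) →
      Att A.Rk A.Q A.val Okf T' (ENNReal.ofReal (a + M * cu (A.U T' Qr Go)))) :
    ∀ (n : ℕ) (T : Cfg X) (S : ℝ), A.St T Qr Go → A.al T ⊆ A.al T₁ → S ≤ n * ρ →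
      ((A.kd T).card : ℝ) + (S + 1) / A.t₁ ≤ Nr →
      Att A.Rk A.Q A.val Okf T (ENNReal.ofReal (val lam B (a + 3 * Real.exp (A.v * bL) *
        ((1 + A.R.card) * Real.exp (-(j : ℝ) / 5))) M S (cu (A.U T Qr Go)) (A.y θ T b))) := by
  intro n
  have ht₁ : 0 < A.t₁ := hy.pos.2.2.2.2.1
  have hc := H.cup.2.2
  set tn : ℝ := 3 * Real.exp (A.v * bL) * ((1 + A.R.card) * Real.exp (-(j : ℝ) / 5)) with htn
  have htn0 : 0 ≤ tn := by positivity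
  have hone : ∀ (T : Cfg X) (S : ℝ), A.St T Qr Go → S ≤ 40 * A.y θ T b →
      Att A.Rk A.Q A.val Okf T (ENNReal.ofReal (val lam B (a + tn) M S (cu (A.U T Qr Go))
        (A.y θ T b))) := by
    intro T S st hS
    obtain ⟨_, _, m3, m4⟩ := mass_T H.run hy st hb hθ
    obtain ⟨d1, d2, _⟩ := hc.1 _ (U_nonneg A T Qr Go)
    refine Att.mono _ _ _ ?_ (Att.one _)
    rw [← ENNReal.ofReal_one]
    exact ENNReal.ofReal_le_ofReal (val_ge_one hlam hB (add_nonneg ha htn0) hM d1 d2 m3 m4 hS)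
  induction n with
  | zero =>
    intro T S st _ hS _
    obtain ⟨_, _, m3, _⟩ := mass_T H.run hy st hb hθ
    refine hone T S st ?_
    have : S ≤ 0 := by simpa using hS
    linarith
  | succ n ih =>
    intro T S st hal hS hcd
    obtain ⟨m1, m2, m3, m4⟩ := mass_T H.run hy st hb hθ
    obtain ⟨d1, d2, _⟩ := hc.1 _ (U_nonneg A T Qr Go)
    rcases le_or_gt S (40 * A.y θ T b) with hS0 | hS0
    · exact hone T S st hS0
    have hSpos : 0 < S := by linarith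
    have hge2 := val_ge2 (lam := lam) (B := B) (a := a + tn) (M := M) (S := S) (y := A.y θ T b)
      hlam hB d1 d2
    rcases le_or_gt 1 (A.U T Qr Go) with hU | hU
    · refine Att.mono _ _ _ ?_ (Att.one _)
      rw [← ENNReal.ofReal_one]
      refine ENNReal.ofReal_le_ofReal ?_
      have h1 := hc.2.1 _ hU
      rw [h1] at hge2 ⊢
      linarith
    by_cases hl : ∀ x ∈ A.al T, A.a T b x ≤ 2 * A.t₁
    · refine Att.mono _ _ _ ?_ (hcont T st hal ?_ hU hl)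
      · refine ENNReal.ofReal_le_ofReal (le_trans ?_ hge2)
        linarith
      · have : 0 ≤ (S + 1) / A.t₁ := by positivity
        linarith
    push Not at hl
    obtain ⟨x₁, hx₁, hx₁'⟩ := hl
    have hgam : gam (A.k T) (A.G T) b ≠ 0 := by
      intro h0
      have h1 : A.a T b x₁ = 0 := by
        unfold Pa.a aa
        rw [h0, div_zero]
      rw [h1] at hx₁'
      linarith
    set D : Finset X := (A.al T).filter fun x => A.t₁ ≤ A.a T b x with hD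
    have hDs : D ⊆ A.al T := Finset.filter_subset _ _
    have hDt : ∀ x ∈ D, A.t₁ ≤ A.a T b x := fun x hx => (Finset.mem_filter.1 hx).2
    have hDk : D ⊆ A.Rk := by
      intro x hx
      by_contra hcon
      exact absurd (hDt x hx) (not_le.2 (hy.far T Qr Go st b hb x (hDs hx) hcon))
    have hDn : D.Nonempty := ⟨x₁, Finset.mem_filter.2 ⟨hx₁, by linarith⟩⟩
    set r : ℝ := ∑ x ∈ D, A.a T b x with hr
    have hDr : (D.card : ℝ) * A.t₁ ≤ r := by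
      calc (D.card : ℝ) * A.t₁ = ∑ x ∈ D, A.t₁ := by rw [Finset.sum_const, nsmul_eq_mul]
        _ ≤ ∑ x ∈ D, A.a T b x := Finset.sum_le_sum fun x hx => hDt x hx
    have hr1 : r ≤ 1 := (Finset.sum_le_sum_of_subset_of_nonneg hDs fun x _ _ => m1 x).trans m2
    have hry : r ≤ A.y θ T b := by
      have h1 : r = ∑ x ∈ D, θ (A.a T b x) :=
        Finset.sum_congr rfl fun x hx => (hθ.hi _ (hDt x hx)).symm
      rw [h1]
      exact Finset.sum_le_sum_of_subset_of_nonneg hDs fun x _ _ => (hθ.bd _ (m1 x)).1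
    have hDc : (D.card : ℝ) ≤ r / A.t₁ := by rwa [le_div_iff₀ ht₁]
    have hDc2 : (D.card : ℝ) ≤ (S + 1) / A.t₁ :=
      hDc.trans (div_le_div_of_nonneg_right (by linarith) ht₁.le)
    have hNN : (A.kd T).card + D.card ≤ A.N := by
      have h1 : ((A.kd T).card : ℝ) + D.card ≤ A.N := by linarith
      exact_mod_cast h1
    have hstk := (H.stk X A κs g₀ Λ Lc hK kI hy T Qr D Go st hDs hDk hNN).1
    have hcutT : ∀ c ∈ A.al T, A.k A.T₀ b * ‖A.G A.T₀ b c‖ ^ 2 ≤ hK := fun c hc => hcut c (hal hc)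
    have halz : ∀ ζ, A.al (T.kl D ζ) ⊆ A.al T₁ := fun ζ => by
      rw [(hstk ζ).2.2.2.2]
      exact Finset.sdiff_subset.trans hal
    have hkdz : ∀ ζ, ((A.kd (T.kl D ζ)).card : ℝ) ≤ (A.kd T).card + D.card := fun ζ => by
      rw [(hstk ζ).2.2.2.1]
      exact_mod_cast Finset.card_union_le _ _
    rcases le_or_gt ρ r with hρr | hρr
    · refine round H hb1 hlam hB A hy T Qr D Go b st hb hDs hDk hNN hcutT hgam t₀ εc ρ S r (a + tn) M θ hθ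
        ht₀ ht ht1 hεc hεc0 hδc hκc hβ hρ hr hDt hρr (by linarith) (add_nonneg ha htn0) hM Okf
        fun ζ => ?_
      refine ih (T.kl D ζ) (S - r) (hstk ζ).1 (halz ζ) ?_ ?_
      · push_cast at hS
        linarith
      · have h1 : (S - r + 1) / A.t₁ + r / A.t₁ = (S + 1) / A.t₁ := by ring
        have h2 := hkdz ζ
        linarith
    · refine Att.mono _ _ _ ?_ (last H hklr A hy T Qr D Go b st hb hDs hDk hNN hcutT hgam hDn ρ ε bL a M j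
        ht1 hρ hj hε hε1 hδ hκ hn1 hn2 hn3 hDt (fun x hx => ?_) hρr.le ha hM Okf fun ζ h1 h2 => ?_)
      · exact ENNReal.ofReal_le_ofReal hge2
      · obtain ⟨h1, h2⟩ := Finset.mem_sdiff.1 hx
        by_contra h3
        exact h2 (Finset.mem_filter.2 ⟨h1, (not_le.1 h3).le⟩)
      · refine hcont _ (hstk ζ).1 (halz ζ) ?_ h1 h2
        have h3 := hkdz ζ
        linarith

end

/-- PHN -/
theorem phn (H : Rows) (hklr : KlrStmt) (hkr1 : Kr1Stmt) (hkth : KthStmt) : PhnStmt := by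
  obtain ⟨ε₁, lam, C, B, hε₁, hlam, hlam1, hC, hB, hb1⟩ := hkr1
  obtain ⟨Cθ, hCθ, hth⟩ := hkth
  set ε₀ : ℝ := min ε₁ 1 with hε₀
  have hε0 : 0 < ε₀ := lt_min hε₁ one_pos
  have hε01 : ε₀ ≤ 1 := min_le_right _ _
  have hq : 1 ≤ Cθ / ε₀ := by
    rw [le_div_iff₀ hε0]
    linarith
  refine ⟨ε₀, Real.exp (-(Cθ / ε₀)), lam, C, B, hε0, Real.exp_pos _, ?_, hlam, hlam1, hC, hB, ?_⟩
  · rw [Real.exp_le_one_iff]
    linarith
  intro X _ _ A κs g₀ Λ Lc hK kI ρ S₀ ε bL j nP hy ht1 hδc hκc hβ hρ hj hε hε1 hδ hκ hn1 hn2 hn3 hS₀ hnP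
  have ht₁ : 0 < A.t₁ := hy.pos.2.2.2.2.1
  have hc0 : 0 < Real.exp (-(Cθ / ε₀)) := Real.exp_pos _
  have hc1 : Real.exp (-(Cθ / ε₀)) ≤ 1 := by
    rw [Real.exp_le_one_iff]
    linarith
  obtain ⟨θ, hθ⟩ := hth (Real.exp (-(Cθ / ε₀)) * A.t₁) A.t₁ (mul_pos hc0 ht₁) (by
    rw [← mul_assoc, ← Real.exp_add]
    have h1 : Real.exp (1 + -(Cθ / ε₀)) ≤ 1 := by
      rw [Real.exp_le_one_iff]
      linarith
    nlinarith)
  have hlog : Cθ / Real.log (A.t₁ / (Real.exp (-(Cθ / ε₀)) * A.t₁)) = ε₀ := by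
    have h1 : A.t₁ / (Real.exp (-(Cθ / ε₀)) * A.t₁) = Real.exp (Cθ / ε₀) := by
      rw [Real.exp_neg]
      field_simp
    rw [h1, Real.log_exp]
    field_simp
  rw [hlog] at hθ
  intro T Qr Go b st hb hcut hN Okf a M ha hM hcont
  have key := phase H hklr hb1 hlam hB A hy Qr Go b hb (Real.exp (-(Cθ / ε₀)) * A.t₁) ε₀ ρ ε bL a M
    ((A.kd T).card + nP) j θ hθ (mul_pos hc0 ht₁) (by nlinarith) ht1 hε0.le (min_le_left _ _) hδc hκc
    hβ hρ hj hε hε1 hδ hκ hn1 hn2 hn3 ha hM Okf T (by exact_mod_cast hN) hcut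
    (fun T' st' h1 h2 h3 h4 => hcont T' st' h1 (by exact_mod_cast h2) h3 h4) ⌈S₀ / ρ⌉₊ T S₀ st
    (Finset.Subset.refl _) ?_ (by linarith)
  · refine Att.mono _ _ _ (ENNReal.ofReal_le_ofReal ?_) key
    obtain ⟨_, _, m3, m4⟩ := mass_T H.run hy st hb hθ
    obtain ⟨d1, d2, _⟩ := H.cup.2.2.1 _ (U_nonneg A T Qr Go)
    refine (val_le hlam d1 d2 m4).trans (le_of_eq ?_)
    ring
  · have h1 := Nat.le_ceil (S₀ / ρ)
    rw [div_le_iff₀ hρ] at h1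
    exact h1

end Pool.Agent.ATT.H38
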